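import Pool.Agent.Run7.h528.SP.Main

/-!
# Special actions on CAT(0) cube complexes and the L-theoretic assembly map

`C` is any class of groups with the closure properties `ClosedE C`, all of which are known for the
class of the groups whose wreath products with finite groups satisfy the K- and L-theoretic
Farrell-Jones conjecture with coefficients. For an aspherical complex whose fundamental group is
torsion-free and in this class the L-theoretic assembly map is an equivalence.

Let a group `G` act on a CAT(0) cube complex `X`. There is no assumption on the dimension, which may be
infinite, nor on the stabilizers in `G`, and `X` need not be locally finite or cocompact. Let `N` be a
normal subgroup which acts freely and specially in the sense of Haglund and Wise: the hyperplanes of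
the nonpositively curved cube complex `X / N` are two-sided, do not intersect or directly osculate
themselves, and no two of them cross and osculate. If `G / N` is in `C`, then `G` is in `C`.

So the theorem is about the groups with a homomorphism to a group in `C` whose kernel acts freely and
specially on a CAT(0) cube complex with an action of the whole group. For trees it contains the groups
which act on a tree and have a homomorphism to a group in `C` that is injective on the stabilizers of
the vertices (`N24.TR`), for `G / N = 1` it says that the fundamental groups of all special cube
complexes, not necessarily compact, are in `C`.

The cube complex is given by its `1`-skeleton: the `1`-skeletons of the CAT(0) cube complexes are exactly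
the median graphs (Gerasimov, Roller, Chepoi), every `4`-cycle in a median graph bounds a unique square
and the hyperplanes are the classes of the equivalence relation on the edges generated by being
opposite edges in a `4`-cycle. `Par T N` is this relation for the oriented edges modulo the action of `N`.

Outline of the proof. Let `S` be the set of the `N`-orbits of oriented hyperplanes and `W` the right-angled
Coxeter group with generators `S`, two of them commuting if they cross in `X / N`. Reading off
the classes of the edges along paths, where the edge from `a` to `b` gives the product of the generators
of `(a, b)` and of `(b, a)`, one obtains a homomorphism from `G` to the semidirect product of `W` and `G / N`;
the product along a path depends only on its endpoints since `X` is simply connected. To see that it is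
injective one lets `W` act on the product of the set of vertices with a set of signs for the unoriented
classes: generators move vertices along edges of their class as long as there is one. The semidirect
product is a graph-wreath product, which is in `C` by `PP.gpw`.
-/

set_option autoImplicit false

namespace Pool.Agent.Results.MP_98022b_gt.SpecialActions

open Pool.Agent.Y110.FJ (ClosedE)
open Run7.h528.SP

theorem result (C : ∀ (G : Type) [Group G], Prop) (hC : ClosedE C) (G V : Type) [Group G]
    [MulAction G V] (T : SimpleGraph V) (hT : IsMedian T)
    (hact : ∀ (g : G) (u v : V), T.Adj u v → T.Adj (g • u) (g • v))
    (N : Subgroup G) [N.Normal] (hs : Special T N) (hQ : C (G ⧸ N)) : C G :=
  special_main hact hC hT hQ hs

end Pool.Agent.Results.MP_98022b_gt.SpecialActions
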